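import Mathlib
import Pool.Agent.Lib.MP_5c6457_an.Defs
import Pool.Agent.Lib.MP_5c6457_an.Gabor
import Pool.Agent.Lib.MP_5c6457_an.RieszFrame

/-!
# MP_5c6457_an: a universal ordering for operator representations of Gabor frames

For both index sets `I = ℕ₀` and `I = ℤ` the answer to Q1 is yes, and in fact every bijection
`σ : I → ℤ²` is universal, because the class `C_I` consists exactly of the Gabor Riesz bases:
no overcomplete Gabor frame is an orbit `{T ^ k φ}` of a bounded operator, in any ordering.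

Idea of the proof.  Let `R` be the inverse of the frame operator and
`γ(k, l) = ⟨f k, R (f l)⟩`.  Boundedness of `T` gives `‖R^{1/2} T x‖ ≤ ‖R^{1/2} x‖`; covariance of
a Gabor system makes `γ(k, k)` constant, so equality holds at each `f k` and
`γ(k + 1, l + 1) = γ(k, l)`.  For `ℕ₀`, comparing `∑ |γ(k, l)|²` for consecutive `l` gives
`γ(0, m) = 0` for `m ≥ 1`.  For `ℤ`, covariance gives `|γ(k + j, k)| = A(σ (k + j) - σ k)` with
`A` square summable on `ℤ²`; a nonzero off-diagonal value would make the Cayley graphs of `ℤ` and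
`ℤ²` for two finite sets isomorphic, with finitely many components, contradicting their
growth.  Hence `γ` is the identity matrix and the frame is a Riesz basis.
-/

noncomputable section

namespace Pool.Agent.Results.MP_5c6457_an.UniversalOrdering

open Pool.Agent.MP_5c6457_an

/-- For `I = ℕ₀` and for `I = ℤ`: bijections `σ : I ≃ ℤ × ℤ` exist, and every one of them is a
universal ordering, i.e. gives a bounded representation of `gabor g a b` for every
`(g, a, b) ∈ C_I`.  Moreover `C_I` is exactly the class of Gabor Riesz bases. -/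
theorem result :
    (Nonempty (ℕ ≃ ℤ × ℤ) ∧
      ∀ (σ : ℕ ≃ ℤ × ℤ) (g : L2R) (a b : ℝ), ClassNat g a b →
        HasBoundedRepNat (fun k => gabor g a b (σ k))) ∧
    (Nonempty (ℤ ≃ ℤ × ℤ) ∧
      ∀ (σ : ℤ ≃ ℤ × ℤ) (g : L2R) (a b : ℝ), ClassInt g a b →
        HasBoundedRepInt (fun k => gabor g a b (σ k))) ∧
    (∀ (g : L2R) (a b : ℝ), g ≠ 0 → 0 < a → 0 < b →
      ((ClassNat g a b ↔ IsRieszBasis (gabor g a b)) ∧
        (ClassInt g a b ↔ IsRieszBasis (gabor g a b)))) := by
  have hN : Nonempty (ℕ ≃ ℤ × ℤ) := ⟨(Denumerable.eqv (ℤ × ℤ)).symm⟩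
  have hZ : Nonempty (ℤ ≃ ℤ × ℤ) := ⟨(Denumerable.eqv ℤ).trans (Denumerable.eqv (ℤ × ℤ)).symm⟩
  refine ⟨⟨hN, fun σ g a b h => hasBoundedRepNat_of_riesz (riesz_of_classNat h) σ⟩,
    ⟨hZ, fun σ g a b h => hasBoundedRepInt_of_riesz (riesz_of_classInt h) σ⟩, ?_⟩
  intro g a b hg ha hb
  refine ⟨⟨riesz_of_classNat, fun h => ?_⟩, ⟨riesz_of_classInt, fun h => ?_⟩⟩
  · obtain ⟨σ⟩ := hN
    exact ⟨hg, ha, hb, h.isFrame, σ, hasBoundedRepNat_of_riesz h σ⟩
  · obtain ⟨σ⟩ := hZ
    exact ⟨hg, ha, hb, h.isFrame, σ, hasBoundedRepInt_of_riesz h σ⟩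

end Pool.Agent.Results.MP_5c6457_an.UniversalOrdering
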